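import Mathlib
import Pool.Agent.X300.RB.WE

/-!
# Weil-etale cohomology of `A × Z` for almost all abelian varieties `A`

Let `A` be a product of powers of abelian varieties of dimensions `g i` over the field with `q`
elements (over an extension with `Q = q ^ s` elements and up to isogeny), given by their Weil
polynomials `f i`, and let `Z` be a smooth projective variety over the field with `Q` elements.

The theorem says that for almost all families `f` of Weil polynomials (all but a proportion
`O (q ^ (-1 / 6) log q)`, for all isogeny classes as well as for the ordinary ones) Lichtenbaum's
conjecture holds for `A × Z` (all groups `H^i_W(A × Z, ℤ(n))` are finitely generated) if and only if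
it holds for `Z`, for all `Z` whose Frobenius eigenvalues lie, up to powers, in a group generated by
the nonzero elements of the number field `E` and `r < g i` further numbers.

We use the theorem of Geisser and Kahn (`IsWeilEtale`) that for a smooth projective variety `X` the
groups `H^i_W(X, ℤ(n))`, `n ≥ 0`, are finitely generated if and only if in all bidegrees the
regulator induces an isomorphism of `H^i(X, ℚ(j)) ⊗ ℚ_ℓ` with the Frobenius invariants of `ℓ`-adic
cohomology and the eigenvalue one of Frobenius is semisimple (this includes Parshin's conjecture).
What we prove is a Kunneth formula for both theories and the equivalence of these statements for
`A × Z` and `Z`. The theory `T` is motivic cohomology tensored with `ℚ_ℓ`. The condition on the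
operation of the Frobenius endomorphism of `Z` on the motivic cohomology of `A × Z` is known if the
motive of `Z` is built from motives of curves and abelian varieties; for such `Z`, as products of
curves, the conjecture is not known in general.
-/

set_option autoImplicit false

namespace Pool.Agent.Results.MP_cb388a_ag.AlmostAllFactorsFG

open Pool.Agent.Y156.L Pool.Agent.X300.RB

/-- Let `r < g i` for all `i` and let `E` be a number field. Almost all families of abelian
varieties of dimensions `g i` over the field with `q` elements, given by their Weil polynomials
`f i`, have the property `WeilEtaleForRankOver E q r f`: for products `A` of powers of these abelian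
varieties and all `Z` of rank at most `r` over `E`, the Weil-etale cohomology groups of `A × Z` are
finitely generated if and only if those of `Z` are. -/
theorem result {I : Type} [Fintype I] (g : I → ℕ) (r : ℕ) (hr : ∀ i, r < g i)
    (E : IntermediateField ℚ ℂ) [FiniteDimensional ℚ E] :
    AlmostAll g fun q f => WeilEtaleForRankOver E q r f :=
  count_we g r hr E

end Pool.Agent.Results.MP_cb388a_ag.AlmostAllFactorsFG
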